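import Pool.Agent.H.MP_89b4f4_co.E

set_option autoImplicit false

namespace Pool.Agent.Results.MP_89b4f4_co.GI
open Pool.Agent.Lib.CX Pool.Agent.H.MP_89b4f4_co

theorem result :
    Red (fun a : Gr × Gr => Nonempty (a.1.G ≃g a.2.G))
      (fun a : {a : Gr × Gr // Dim3 a.1.G ∧ Dim3 a.2.G} => Nonempty (a.1.1.G ≃g a.1.2.G)) :=
  ⟨fun a => ⟨(red a.1 (len a), red a.2 (len a)), red_dim a.1 (by nlinarith), red_dim a.2 (by nlinarith)⟩,
    ((pt_red PT.fst').pair (pt_red PT.snd')).subtype _, fun a => red_iff a.1 a.2 (by unfold len; omega)⟩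

end Pool.Agent.Results.MP_89b4f4_co.GI
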